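import Pool.Agent.Q290.AB.List

/-!
# Configurations with prescribed primes of bad reduction
-/

set_option autoImplicit false

namespace Pool.Agent.Q290.AB

open NumberField IsDedekindDomain
open Pool.Agent.Q231.SH (IsTriple rad3 trip six UnitAt sqf)

theorem goodAt_of_units {K : Type} [Field K] [NumberField K] {m : ℕ} {z : Fin m → K} {b : Fin m → ℚ} (hz : Moeb z b)
    (v : HeightOneSpectrum (𝓞 K)) (h1 : ∀ i, v.valuation K ((b i : ℚ) : K) ≤ 1)
    (h2 : ∀ i j, i ≠ j → v.valuation K ((b i : ℚ) - (b j : ℚ) : K) = 1) : GoodAt v z := by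
  obtain ⟨α, β, γ, δ, hd, hm⟩ := hz
  have e1 : ∀ i, (γ * z i + δ)⁻¹ * (α * z i + β) = ((b i : ℚ) : K) := by
    intro i
    rw [← (hm i).2, mul_comm ((b i : ℚ) : K), inv_mul_cancel_left₀ (hm i).1]
  have e2 : ∀ i, (γ * z i + δ)⁻¹ * (γ * z i + δ) = 1 := fun i => inv_mul_cancel₀ (hm i).1
  refine ⟨α, β, γ, δ, fun i => (γ * z i + δ)⁻¹, hd, fun i => ⟨?_, ?_⟩, fun i j hij => ?_⟩
  · show v.valuation K ((γ * z i + δ)⁻¹ * (α * z i + β)) ≤ 1
    rw [e1]
    exact h1 i
  · show v.valuation K ((γ * z i + δ)⁻¹ * (γ * z i + δ)) ≤ 1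
    rw [e2, map_one]
  · show v.valuation K ((γ * z i + δ)⁻¹ * (α * z i + β) * ((γ * z j + δ)⁻¹ * (γ * z j + δ)) -
      (γ * z j + δ)⁻¹ * (α * z j + β) * ((γ * z i + δ)⁻¹ * (γ * z i + δ))) = 1
    rw [e1, e1, e2, e2, mul_one, mul_one]
    exact h2 i j hij

theorem mem_int {K : Type} [Field K] [NumberField K] {v : HeightOneSpectrum (𝓞 K)} {p : ℕ}
    (hv : ∀ n : ℕ, ((n : ℕ) : 𝓞 K) ∈ v.asIdeal ↔ p ∣ n) (n : ℤ) : ((n : ℤ) : 𝓞 K) ∈ v.asIdeal ↔ (p : ℤ) ∣ n := by
  rw [Int.natCast_dvd, ← hv]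
  rcases Int.natAbs_eq n with h | h
  · conv_lhs => rw [h]
    rw [Int.cast_natCast]
  · conv_lhs => rw [h]
    rw [Int.cast_neg, Int.cast_natCast, neg_mem_iff]

theorem val_int {K : Type} [Field K] [NumberField K] {v : HeightOneSpectrum (𝓞 K)} {p : ℕ}
    (hv : ∀ n : ℕ, ((n : ℕ) : 𝓞 K) ∈ v.asIdeal ↔ p ∣ n) (n : ℤ) (hn : ¬ (p : ℤ) ∣ n) : v.valuation K (n : K) = 1 := by
  have h1 : v.valuation K (n : K) ≤ 1 := by
    have := v.valuation_le_one (K := K) (n : 𝓞 K)
    simpa using this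
  have h2 : ¬ v.valuation K (n : K) < 1 := by
    intro h
    apply hn
    rw [← mem_int hv]
    refine (v.valuation_lt_one_iff_mem (K := K) (n : 𝓞 K)).1 ?_
    simpa using h
  exact le_antisymm h1 (not_lt.1 h2)

/-- the primes not dividing this number are primes of good reduction -/
def pb {m : ℕ} (b : Fin m → ℚ) : ℕ :=
  (∏ i, (b i).den) * ∏ i, ∏ j ∈ Finset.univ.filter (fun j => j ≠ i), (b i - b j).num.natAbs * (b i - b j).den

theorem pb_ne {m : ℕ} {b : Fin m → ℚ} (hb : Function.Injective b) : pb b ≠ 0 := by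
  unfold pb
  refine mul_ne_zero (Finset.prod_ne_zero_iff.2 fun i _ => (b i).den_ne_zero) (Finset.prod_ne_zero_iff.2 fun i _ =>
    Finset.prod_ne_zero_iff.2 fun j hj => mul_ne_zero ?_ (b i - b j).den_ne_zero)
  rw [Int.natAbs_ne_zero, Rat.num_ne_zero, sub_ne_zero]
  exact fun h => (Finset.mem_filter.1 hj).2 (hb h).symm

theorem good_of_not_dvd {K : Type} [Field K] [NumberField K] {m : ℕ} {z : Fin m → K} {b : Fin m → ℚ} (hz : Moeb z b)
    {v : HeightOneSpectrum (𝓞 K)} {p : ℕ} (hp : p.Prime) (hv : ∀ n : ℕ, ((n : ℕ) : 𝓞 K) ∈ v.asIdeal ↔ p ∣ n)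
    (h : ¬ p ∣ pb b) : GoodAt v z := by
  unfold pb at h
  rw [Nat.Prime.dvd_mul hp, not_or] at h
  obtain ⟨h1, h2⟩ := h
  have hrat : ∀ t : ℚ, (t : K) = (t.num : K) / ((t.den : ℤ) : K) := by
    intro t
    rw [Int.cast_natCast]
    exact Rat.cast_def t
  refine goodAt_of_units hz v (fun i => ?_) (fun i j hij => ?_)
  · have h3 : ¬ p ∣ (b i).den := fun h => h1 (h.trans (Finset.dvd_prod_of_mem _ (Finset.mem_univ i)))
    have h5 : v.valuation K (((b i).den : ℤ) : K) = 1 := val_int hv _ (fun h => h3 (by exact_mod_cast h))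
    rw [hrat, map_div₀, h5, div_one]
    have := v.valuation_le_one (K := K) ((b i).num : 𝓞 K)
    simpa using this
  · have h3 : ¬ p ∣ (b i - b j).num.natAbs * (b i - b j).den := by
      intro h
      apply h2
      have hmem : j ∈ Finset.univ.filter (fun j => j ≠ i) := Finset.mem_filter.2 ⟨Finset.mem_univ j, hij.symm⟩
      refine h.trans ((Finset.dvd_prod_of_mem (fun j => (b i - b j).num.natAbs * (b i - b j).den) hmem).trans ?_)
      exact Finset.dvd_prod_of_mem (fun i => ∏ j ∈ Finset.univ.filter (fun j => j ≠ i),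
        (b i - b j).num.natAbs * (b i - b j).den) (Finset.mem_univ i)
    rw [Nat.Prime.dvd_mul hp, not_or] at h3
    have h4 : ((b i : ℚ) - (b j : ℚ) : K) = ((b i - b j : ℚ) : K) := by push_cast; rfl
    have h5 : v.valuation K (((b i - b j).den : ℤ) : K) = 1 := val_int hv _ (fun h => h3.2 (by exact_mod_cast h))
    rw [h4, hrat, map_div₀, h5, div_one]
    exact val_int hv _ (fun h => h3.1 (Int.natCast_dvd.1 h))

/-- for most `N` no configuration with projectively rational points has exactly the primes of `N` as primes of bad reduction, up to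
the primes which divide `n ≤ D` -/
theorem exact_few (D : ℕ) {ε : ℝ} (hε : 0 < ε) : ∃ C : ℕ, ∀ (T : ℕ) (B : Finset ℕ), (∀ N ∈ B, N ∈ Finset.Icc 1 T ∧
    Squarefree N ∧ ∃ (K : Type) (_ : Field K) (_ : NumberField K) (n m : ℕ)
      (z : Fin m → K), 0 < n ∧ n ≤ D ∧ 3 ≤ m ∧ (∃ b : Fin m → ℚ, Function.Injective b ∧ Moeb z b) ∧
      (∀ v : HeightOneSpectrum (𝓞 K), ((n : ℕ) : 𝓞 K) ∉ v.asIdeal →
        (GoodAt v z ↔ ((N : ℕ) : 𝓞 K) ∉ v.asIdeal))) → (B.card : ℝ) ≤ ε * T + C := by
  classical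
  obtain ⟨L, hL, hinj, hlist⟩ := main_list D hε
  obtain ⟨C, hC⟩ : ∃ C : ℕ, ∀ x ∈ L, D.factorial * pb x.2 ≤ C := by
    obtain ⟨C, hC⟩ := (hL.image (fun x : Conf => D.factorial * pb x.2)).bddAbove
    exact ⟨C, fun x hx => hC ⟨x, hx, rfl⟩⟩
  refine ⟨C, fun T B hB => ?_⟩
  have h1 := hlist T (B.filter (fun N => C < N)) (by
    intro N hN
    rw [Finset.mem_filter] at hN
    obtain ⟨hN, hNC⟩ := hN
    obtain ⟨hN1, hsq, K, i1, i2, n, m, z, hn, hnD, h3, hb, hex⟩ := hB N hN
    refine ⟨hN1, K, i1, i2, n, m, z, hn, hnD, h3, hb, ?_, ?_⟩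
    · intro v hv
      have hv1 : ((n : ℕ) : 𝓞 K) ∉ v.asIdeal := by
        intro h
        apply hv
        rw [Nat.cast_mul]
        exact Ideal.mul_mem_right _ _ h
      have hv2 : ((N : ℕ) : 𝓞 K) ∉ v.asIdeal := by
        intro h
        apply hv
        rw [Nat.cast_mul]
        exact Ideal.mul_mem_left _ _ h
      exact (hex v hv1).2 hv2
    · intro b' hb'L hz'
      have h2 := hC _ hb'L
      have h5 : N ∣ D.factorial * pb b' := by
        rw [← Nat.prod_primeFactors_of_squarefree hsq]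
        apply Finset.prod_primes_dvd
        · intro p hp
          exact (Nat.prime_of_mem_primeFactors hp).prime
        · intro p hp
          have hpp := Nat.prime_of_mem_primeFactors hp
          have hpN := Nat.dvd_of_mem_primeFactors hp
          by_contra hcon
          rw [Nat.Prime.dvd_mul hpp, not_or] at hcon
          obtain ⟨v, hv⟩ := exists_place K hpp
          have hv1 : ((n : ℕ) : 𝓞 K) ∉ v.asIdeal := by
            rw [hv]
            exact fun h => hcon.1 (h.trans (Nat.dvd_factorial hn hnD))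
          have h6 := (hex v hv1).1 (good_of_not_dvd hz' hpp hv hcon.2)
          rw [hv] at h6
          exact h6 hpN
      have h6 : N ≤ D.factorial * pb b' :=
        Nat.le_of_dvd (Nat.pos_of_ne_zero (mul_ne_zero (Nat.factorial_ne_zero D) (pb_ne (hinj _ hb'L)))) h5
      have h7 : D.factorial * pb b' ≤ C := h2
      omega)
  have h2 : B.card ≤ (B.filter (fun N => C < N)).card + C := by
    have h3 : B.card = (B.filter (fun N => C < N)).card + (B.filter (fun N => ¬ C < N)).card :=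
      (Finset.card_filter_add_card_filter_not (s := B) (fun N => C < N)).symm
    have h4 : (B.filter (fun N => ¬ C < N)).card ≤ C := by
      have h5 : B.filter (fun N => ¬ C < N) ⊆ Finset.Icc 1 C := by
        intro N hN
        rw [Finset.mem_filter] at hN
        have := (hB N hN.1).1
        rw [Finset.mem_Icc] at this ⊢
        omega
      have := Finset.card_le_card h5
      rw [Nat.card_Icc] at this
      omega
    omega
  have h3 : (B.card : ℝ) ≤ ((B.filter (fun N => C < N)).card : ℝ) + C := by exact_mod_cast h2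
  linarith

end Pool.Agent.Q290.AB
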