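import Pool.Agent.Q290.AB.Val
import Pool.Agent.Q231.SH.Main

/-!
# One finite list of configurations for most bases
-/

set_option autoImplicit false

namespace Pool.Agent.Q290.AB

open NumberField IsDedekindDomain
open Pool.Agent.Q231.SH (IsTriple rad3 trip six UnitAt sqf)

/-- a configuration of rational numbers -/
abbrev Conf : Type := Σ m : ℕ, (Fin m → ℚ)

/-- the cross ratios with respect to the first three points -/
def cross {m : ℕ} (h : 3 ≤ m) (b : Fin m → ℚ) (i : Fin m) : ℚ :=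
  cr (b i) (b ⟨0, by omega⟩) (b ⟨1, by omega⟩) (b ⟨2, by omega⟩)

theorem one_sub_cr {K : Type} [Field K] {x y z w : K} (h1 : x ≠ w) (h2 : z ≠ y) : 1 - cr x y z w = cr x z y w := by
  have h3 : x - w ≠ 0 := sub_ne_zero.2 h1
  have h4 : z - y ≠ 0 := sub_ne_zero.2 h2
  have h5 : y - z ≠ 0 := sub_ne_zero.2 h2.symm
  unfold cr
  field_simp
  ring

theorem Moeb.inj {K : Type} [Field K] [CharZero K] {m : ℕ} {z : Fin m → K} {b : Fin m → ℚ} (hb : Function.Injective b)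
    (h : Moeb z b) : Function.Injective z := by
  obtain ⟨α, β, γ, δ, hd, hm⟩ := h
  intro i j hij
  apply hb
  have h1 := (hm i).2
  have h2 := (hm j).2
  rw [hij, ← h2] at h1
  have h3 := mul_right_cancel₀ (hm j).1 h1
  exact_mod_cast h3

theorem Moeb.comp {K : Type} [Field K] [CharZero K] {m : ℕ} {z : Fin m → K} {b b' : Fin m → ℚ} (h : Moeb z b)
    (h' : ∃ α β γ δ : ℚ, α * δ - β * γ ≠ 0 ∧ ∀ i, γ * b i + δ ≠ 0 ∧ b' i * (γ * b i + δ) = α * b i + β) :
    Moeb z b' := by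
  obtain ⟨A, B, C, E, hd, hm⟩ := h
  obtain ⟨α, β, γ, δ, hd', hm'⟩ := h'
  have hdK : ((α : K) * δ - β * γ) ≠ 0 := by exact_mod_cast hd'
  refine ⟨α * A + β * C, α * B + β * E, γ * A + δ * C, γ * B + δ * E, ?_, fun i => ?_⟩
  · have e : ((α : K) * A + β * C) * (γ * B + δ * E) - (α * B + β * E) * (γ * A + δ * C) =
        (α * δ - β * γ) * (A * E - B * C) := by ring
    rw [e]
    exact mul_ne_zero hdK hd
  · obtain ⟨h1, h2⟩ := hm i
    obtain ⟨h3, h4⟩ := hm' i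
    have h3' : (γ : K) * (b i : ℚ) + δ ≠ 0 := by exact_mod_cast h3
    have h4' : ((b' i : ℚ) : K) * (γ * (b i : ℚ) + δ) = α * (b i : ℚ) + β := by exact_mod_cast h4
    have e1 : ((γ : K) * A + δ * C) * z i + (γ * B + δ * E) = (γ * (b i : ℚ) + δ) * (C * z i + E) := by
      linear_combination -(γ : K) * h2
    refine ⟨?_, ?_⟩
    · rw [e1]
      exact mul_ne_zero h3' h1
    · rw [e1]
      linear_combination (C * z i + E) * h4' + (α : K) * h2

theorem Moeb.refl {m : ℕ} (b : Fin m → ℚ) : Moeb b b :=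
  ⟨1, 0, 0, 1, by norm_num, fun i => ⟨by norm_num, by simp⟩⟩

/-- the cross ratios of a configuration with good reduction outside `M N`, for a typical `N` -/
theorem cross_mem {K : Type} [Field K] [NumberField K] {m : ℕ} (h3 : 3 ≤ m) {z : Fin m → K} {b : Fin m → ℚ}
    (hb : Function.Injective b) (hz : Moeb z b) {n D N : ℕ} (hn : 0 < n) (hnD : n ≤ D)
    (hgood : ∀ v : HeightOneSpectrum (𝓞 K), ((n * N : ℕ) : 𝓞 K) ∉ v.asIdeal → GoodAt v z) {Y : ℝ}
    (hN : ¬ ∃ t, IsTriple t ∧ Y < (rad3 t : ℝ) ∧ rad3 t ∣ 2 * (D.factorial * N)) (i : Fin m) (hi : 3 ≤ i.1) :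
    ∃ s ∈ trip Y, cross h3 b i ∈ six s := by
  have hzi := Moeb.inj hb hz
  have n0 : i ≠ ⟨0, by omega⟩ := by rw [Ne, Fin.ext_iff]; simp only; omega
  have n1 : i ≠ ⟨1, by omega⟩ := by rw [Ne, Fin.ext_iff]; simp only; omega
  have n2 : i ≠ ⟨2, by omega⟩ := by rw [Ne, Fin.ext_iff]; simp only; omega
  have n01 : (⟨0, by omega⟩ : Fin m) ≠ ⟨1, by omega⟩ := by rw [Ne, Fin.ext_iff]; simp
  have n02 : (⟨0, by omega⟩ : Fin m) ≠ ⟨2, by omega⟩ := by rw [Ne, Fin.ext_iff]; simp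
  have n12 : (⟨1, by omega⟩ : Fin m) ≠ ⟨2, by omega⟩ := by rw [Ne, Fin.ext_iff]; simp
  have ht0 : cross h3 b i ≠ 0 := by
    unfold cross cr
    exact div_ne_zero (mul_ne_zero (sub_ne_zero.2 fun h => n0 (hb h)) (sub_ne_zero.2 fun h => n12 (hb h)))
      (mul_ne_zero (sub_ne_zero.2 fun h => n2 (hb h)) (sub_ne_zero.2 fun h => n01 (hb h).symm))
  have ht1' : 1 - cross h3 b i = cr (b i) (b ⟨1, by omega⟩) (b ⟨0, by omega⟩) (b ⟨2, by omega⟩) :=
    one_sub_cr (fun h => n2 (hb h)) (fun h => n01 (hb h).symm)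
  have ht1 : cross h3 b i ≠ 1 := by
    intro h
    rw [h, sub_self] at ht1'
    refine absurd ht1'.symm ?_
    unfold cr
    exact div_ne_zero (mul_ne_zero (sub_ne_zero.2 fun h => n1 (hb h)) (sub_ne_zero.2 fun h => n02 (hb h)))
      (mul_ne_zero (sub_ne_zero.2 fun h => n2 (hb h)) (sub_ne_zero.2 fun h => n01 (hb h)))
  obtain ⟨s, hs, h6, hp⟩ := Pool.Agent.Q231.SH.exists_triple_of_unit (cross h3 b i) ht0 ht1 (D.factorial * N) (by
    intro p hp hp2 hpN
    have hpn : ¬ p ∣ n * N := by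
      intro h
      apply hpN
      rcases (Nat.Prime.dvd_mul hp).1 h with h | h
      · exact Dvd.dvd.mul_right (h.trans (Nat.dvd_factorial hn hnD)) _
      · exact Dvd.dvd.mul_left h _
    obtain ⟨v, hv⟩ := exists_place K hp
    have hg := hgood v (fun h => hpn ((hv _).1 h))
    have hint : ∀ k : ℤ, v.valuation K (k : K) ≤ 1 := by
      intro k
      have := v.valuation_le_one (K := K) (k : 𝓞 K)
      simpa using this
    have hp1 : v.valuation K (p : K) < 1 := by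
      have := (v.valuation_lt_one_iff_mem (K := K) (p : 𝓞 K)).2 ((hv p).2 dvd_rfl)
      simpa using this
    refine ⟨unitAt_of_val _ hint hp1 ?_, unitAt_of_val _ hint hp1 ?_⟩
    · unfold cross
      rw [cr_moeb hzi hz _ _ _ _ n2 n01.symm]
      exact val_cr hg n0 n12 n2 n01.symm
    · rw [ht1', cr_moeb hzi hz _ _ _ _ n2 n01]
      exact val_cr hg n1 n02 n2 n01)
  have h1 := Pool.Agent.Q231.SH.rad3_dvd hp
  refine ⟨s, ⟨hs, ?_⟩, h6⟩
  by_contra hlt
  exact hN ⟨s, hs, not_le.1 hlt, h1⟩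

/-- different points have different cross ratios -/
theorem cross_inj {m : ℕ} (h3 : 3 ≤ m) {b : Fin m → ℚ} (hb : Function.Injective b)
    {i j : Fin m} (hi : 3 ≤ i.1) (hj : 3 ≤ j.1) (h : cross h3 b i = cross h3 b j) : i = j := by
  have hneq : ∀ {i j : Fin m}, i ≠ j → b i - b j ≠ 0 := fun h h0 => h (hb (sub_eq_zero.1 h0))
  have n2 : i ≠ ⟨2, by omega⟩ := by rw [Ne, Fin.ext_iff]; simp only; omega
  have m2 : j ≠ ⟨2, by omega⟩ := by rw [Ne, Fin.ext_iff]; simp only; omega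
  have n01 : (⟨0, by omega⟩ : Fin m) ≠ ⟨1, by omega⟩ := by rw [Ne, Fin.ext_iff]; simp
  have n02 : (⟨0, by omega⟩ : Fin m) ≠ ⟨2, by omega⟩ := by rw [Ne, Fin.ext_iff]; simp
  have n12 : (⟨1, by omega⟩ : Fin m) ≠ ⟨2, by omega⟩ := by rw [Ne, Fin.ext_iff]; simp
  unfold cross cr at h
  rw [div_eq_div_iff (mul_ne_zero (hneq n2) (hneq n01.symm)) (mul_ne_zero (hneq m2) (hneq n01.symm))] at h
  have h1 : (b i - b j) * ((b ⟨0, by omega⟩ - b ⟨2, by omega⟩) * ((b ⟨1, by omega⟩ - b ⟨2, by omega⟩) *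
      (b ⟨1, by omega⟩ - b ⟨0, by omega⟩))) = 0 := by
    linear_combination h
  have h2 := (mul_eq_zero.1 h1).resolve_right (mul_ne_zero (hneq n02) (mul_ne_zero (hneq n12) (hneq n01.symm)))
  exact hb (sub_eq_zero.1 h2)

/-- finitely many configurations with cross ratios in a finite set, up to fractional linear transformations -/
theorem exists_list (Λ : Set ℚ) (hΛ : Λ.Finite) : ∃ L : Set Conf, L.Finite ∧ (∀ x ∈ L, Function.Injective x.2) ∧
    ∀ (m : ℕ) (h3 : 3 ≤ m) (b : Fin m → ℚ), Function.Injective b → (∀ i : Fin m, 3 ≤ i.1 → cross h3 b i ∈ Λ) →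
      ∃ b' : Fin m → ℚ, (⟨m, b'⟩ : Conf) ∈ L ∧ cross h3 b' = cross h3 b := by
  classical
  set Λ1 : Set ℚ := insert 0 (insert 1 Λ) with hΛ1
  have hΛ1fin : Λ1.Finite := (hΛ.insert 1).insert 0
  set G : ℕ := Λ.ncard with hG
  set Q : Set Conf := {x | ∃ h : 3 ≤ x.1, Function.Injective x.2 ∧
    (∀ i : Fin x.1, 3 ≤ i.1 → cross h x.2 i ∈ Λ)} with hQ
  set Ψ : Conf → Conf := fun x => ⟨x.1, if h : 3 ≤ x.1 then cross h x.2 else 0⟩ with hΨ
  have hQg : ∀ x ∈ Q, x.1 ≤ G + 3 := by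
    rintro ⟨m, b⟩ ⟨h3, hinj, hcr⟩
    simp only at h3 hinj hcr
    have h1 : (Set.range (fun k : Fin (m - 3) => cross h3 b ⟨k.1 + 3, by omega⟩)) ⊆ Λ := by
      rintro _ ⟨k, rfl⟩
      exact hcr _ (by simp)
    have h2 : Function.Injective (fun k : Fin (m - 3) => cross h3 b ⟨k.1 + 3, by omega⟩) := by
      intro k l hkl
      have := cross_inj h3 hinj (by simp) (by simp) hkl
      rw [Fin.ext_iff] at this ⊢
      simpa using this
    have h4 := Set.ncard_le_ncard h1 hΛ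
    rw [← Set.image_univ, Set.ncard_image_of_injective _ h2, Set.ncard_univ, Nat.card_eq_fintype_card,
      Fintype.card_fin] at h4
    simp only
    omega
  have himg : (Ψ '' Q).Finite := by
    have hsub : Ψ '' Q ⊆ ⋃ m ∈ Set.Iic (G + 3), (fun t : Fin m → ℚ => (⟨m, t⟩ : Conf)) ''
        (Set.univ.pi fun _ => Λ1) := by
      rintro _ ⟨⟨m, b⟩, hx, rfl⟩
      have hgG := hQg _ hx
      obtain ⟨h3, hinj, hcr⟩ := hx
      simp only at h3 hinj hcr hgG
      simp only [Set.mem_iUnion, Set.mem_image, hΨ]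
      refine ⟨m, hgG, cross h3 b, ?_, by rw [dif_pos h3]⟩
      intro i _
      have hneq : ∀ {i j : Fin m}, i ≠ j → b i - b j ≠ 0 := fun h h0 => h (hinj (sub_eq_zero.1 h0))
      by_cases hi : 3 ≤ i.1
      · exact Or.inr (Or.inr (hcr i hi))
      · have : i.1 = 0 ∨ i.1 = 1 ∨ i.1 = 2 := by omega
        rcases this with h0 | h0 | h0
        · left
          have : i = ⟨0, by omega⟩ := Fin.ext h0
          rw [this]; unfold cross cr; simp
        · right; left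
          have : i = ⟨1, by omega⟩ := Fin.ext h0
          rw [this]; unfold cross cr
          have n12 : (⟨1, by omega⟩ : Fin m) ≠ ⟨2, by omega⟩ := by rw [Ne, Fin.ext_iff]; simp
          have n10 : (⟨1, by omega⟩ : Fin m) ≠ ⟨0, by omega⟩ := by rw [Ne, Fin.ext_iff]; simp
          rw [div_eq_one_iff_eq (mul_ne_zero (hneq n12) (hneq n10))]
          ring
        · left
          have : i = ⟨2, by omega⟩ := Fin.ext h0
          rw [this]; unfold cross cr; simp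
    refine Set.Finite.subset ?_ hsub
    refine (Set.finite_Iic (G + 3)).biUnion fun m _ => ?_
    exact (Set.Finite.pi' fun _ => hΛ1fin).subset (by
      intro t ht i; exact ht i (Set.mem_univ _)) |>.image _
  obtain ⟨L, hLQ, hbij⟩ := Set.exists_subset_bijOn Q Ψ
  have hLfin : L.Finite := by
    apply Set.Finite.of_finite_image _ hbij.injOn
    rw [hbij.image_eq]; exact himg
  refine ⟨L, hLfin, fun x hx => (hLQ hx).2.1, fun m h3 b hinj hcr => ?_⟩
  have hxQ : (⟨m, b⟩ : Conf) ∈ Q := ⟨h3, hinj, hcr⟩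
  obtain ⟨y, hyL, hy⟩ := hbij.surjOn ⟨_, hxQ, rfl⟩
  obtain ⟨m', b'⟩ := y
  have hm' : m' = m := congrArg Sigma.fst hy
  subst hm'
  refine ⟨b', hyL, ?_⟩
  simp only [hΨ, dif_pos h3] at hy
  exact eq_of_heq (Sigma.mk.inj_iff.1 hy).2

/-- few integers are divisible, up to a fixed factor, by the radical of a large triple -/
theorem few_mul (M : ℕ) (hM : 0 < M) {ε : ℝ} (hε : 0 < ε) :
    ∃ Y : ℝ, ∀ (T : ℕ) (B : Finset ℕ), (∀ N ∈ B, N ∈ Finset.Icc 1 T ∧ ∃ t, IsTriple t ∧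
      Y < (rad3 t : ℝ) ∧ rad3 t ∣ 2 * (M * N)) → (B.card : ℝ) ≤ ε * T := by
  classical
  have hMr : (0 : ℝ) < M := by exact_mod_cast hM
  obtain ⟨Y, hY⟩ := Pool.Agent.Q231.SH.few (ε := ε / M) (by positivity)
  refine ⟨Y, fun T B hB => ?_⟩
  have h1 := hY (M * T) (B.image (fun N => M * N)) (by
    intro N' hN'
    rw [Finset.mem_image] at hN'
    obtain ⟨N, hN, rfl⟩ := hN'
    obtain ⟨h2, h3⟩ := hB N hN
    rw [Finset.mem_Icc] at h2 ⊢
    exact ⟨⟨Nat.mul_pos hM h2.1, Nat.mul_le_mul_left _ h2.2⟩, h3⟩)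
  rw [Finset.card_image_of_injective _ (fun a b h => Nat.eq_of_mul_eq_mul_left hM h)] at h1
  push_cast at h1
  have h4 : ε / M * (M * (T : ℝ)) = ε * T := by field_simp
  linarith

/-- the main statement -/
theorem main_list (D : ℕ) {ε : ℝ} (hε : 0 < ε) : ∃ L : Set Conf, L.Finite ∧ (∀ x ∈ L, Function.Injective x.2) ∧
    ∀ (T : ℕ) (B : Finset ℕ), (∀ N ∈ B, N ∈ Finset.Icc 1 T ∧ ∃ (K : Type) (_ : Field K) (_ : NumberField K) (n m : ℕ)
      (z : Fin m → K), 0 < n ∧ n ≤ D ∧ 3 ≤ m ∧ (∃ b : Fin m → ℚ, Function.Injective b ∧ Moeb z b) ∧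
      (∀ v : HeightOneSpectrum (𝓞 K), ((n * N : ℕ) : 𝓞 K) ∉ v.asIdeal → GoodAt v z) ∧
        ∀ b : Fin m → ℚ, (⟨m, b⟩ : Conf) ∈ L → ¬ Moeb z b) → (B.card : ℝ) ≤ ε * T := by
  classical
  obtain ⟨Y, hY⟩ := few_mul D.factorial (Nat.factorial_pos D) hε
  set Λ : Set ℚ := ⋃ s ∈ trip Y, (six s : Set ℚ) with hΛ
  have hΛfin : Λ.Finite := (Pool.Agent.Q231.SH.trip_finite Y).biUnion fun s _ => Finset.finite_toSet _
  obtain ⟨L, hL, hinj, hlist⟩ := exists_list Λ hΛfin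
  refine ⟨L, hL, hinj, fun T B hB => hY T B (fun N hN => ?_)⟩
  obtain ⟨hN1, K, _, _, n, m, z, hn, hnD, h3, ⟨b, hb, hz⟩, hgood, hno⟩ := hB N hN
  refine ⟨hN1, ?_⟩
  by_contra hcon
  obtain ⟨b', hb'L, hcr⟩ := hlist m h3 b hb (fun i hi => by
    obtain ⟨s, hs, h6⟩ := cross_mem h3 hb hz hn hnD hgood hcon i hi
    exact Set.mem_biUnion hs h6)
  refine hno b' hb'L (Moeb.comp hz ?_)
  have n01 : (⟨0, by omega⟩ : Fin m) ≠ ⟨1, by omega⟩ := by rw [Ne, Fin.ext_iff]; simp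
  have n02 : (⟨0, by omega⟩ : Fin m) ≠ ⟨2, by omega⟩ := by rw [Ne, Fin.ext_iff]; simp
  have n12 : (⟨1, by omega⟩ : Fin m) ≠ ⟨2, by omega⟩ := by rw [Ne, Fin.ext_iff]; simp
  exact Pool.Agent.Q231.SH.exists_moebius b b' hb (hinj _ hb'L) n01 n02 n12 (fun i => (congrFun hcr i).symm)

end Pool.Agent.Q290.AB
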