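import Mathlib
import Pool.Agent.Q231.SH.Triple

/-!
# Configurations of points of the line over a number field with rational cross ratios
-/

set_option autoImplicit false

namespace Pool.Agent.Q290.AB

open NumberField IsDedekindDomain

/-- the numbers `z i` are mapped to the rational numbers `b i` by a fractional linear transformation over `K` -/
def Moeb {K : Type} [Field K] {m : ℕ} (z : Fin m → K) (b : Fin m → ℚ) : Prop :=
  ∃ α β γ δ : K, α * δ - β * γ ≠ 0 ∧ ∀ i, γ * z i + δ ≠ 0 ∧ ((b i : ℚ) : K) * (γ * z i + δ) = α * z i + β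

/-- the points `z i` of the projective line have good reduction at the place `v`: in suitable coordinates they have integral
homogeneous coordinates which are pairwise not proportional modulo `v` -/
def GoodAt {K : Type} [Field K] [NumberField K] (v : HeightOneSpectrum (𝓞 K)) {m : ℕ} (z : Fin m → K) : Prop :=
  ∃ (α β γ δ : K) (c : Fin m → K), α * δ - β * γ ≠ 0 ∧
    (∀ i, v.valuation K (c i * (α * z i + β)) ≤ 1 ∧ v.valuation K (c i * (γ * z i + δ)) ≤ 1) ∧
    ∀ i j, i ≠ j → v.valuation K (c i * (α * z i + β) * (c j * (γ * z j + δ)) -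
      c j * (α * z j + β) * (c i * (γ * z i + δ))) = 1

/-- the cross ratio -/
def cr {K : Type} [Field K] (x y z w : K) : K := (x - y) * (z - w) / ((x - w) * (z - y))

theorem cr_moeb {K : Type} [Field K] [CharZero K] {m : ℕ} {z : Fin m → K} {b : Fin m → ℚ} (hz : Function.Injective z)
    (h : Moeb z b) (i j k l : Fin m) (hil : i ≠ l) (hkj : k ≠ j) :
    ((cr (b i) (b j) (b k) (b l) : ℚ) : K) = cr (z i) (z j) (z k) (z l) := by
  obtain ⟨α, β, γ, δ, hd, hm⟩ := h
  have h1 : ∀ i j, ((b i : ℚ) : K) - ((b j : ℚ) : K) =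
      (α * δ - β * γ) * (z i - z j) / ((γ * z i + δ) * (γ * z j + δ)) := by
    intro i j
    have hi := (hm i).1
    have hj := (hm j).1
    have ei := (hm i).2
    have ej := (hm j).2
    rw [eq_div_iff (mul_ne_zero hi hj)]
    linear_combination (γ * z j + δ) * ei - (γ * z i + δ) * ej
  unfold cr
  push_cast
  rw [h1, h1, h1, h1]
  have h2 : z i - z l ≠ 0 := sub_ne_zero.2 (fun h => hil (hz h))
  have h3 : z k - z j ≠ 0 := sub_ne_zero.2 (fun h => hkj (hz h))
  have hi := (hm i).1
  have hj := (hm j).1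
  have hk := (hm k).1
  have hl := (hm l).1
  field_simp

theorem val_cr {K : Type} [Field K] [NumberField K] {v : HeightOneSpectrum (𝓞 K)} {m : ℕ} {z : Fin m → K}
    (h : GoodAt v z) {i j k l : Fin m} (hij : i ≠ j) (hkl : k ≠ l) (hil : i ≠ l) (hkj : k ≠ j) :
    v.valuation K (cr (z i) (z j) (z k) (z l)) = 1 := by
  obtain ⟨α, β, γ, δ, c, hd, -, hm⟩ := h
  have h1 : ∀ i j, c i * (α * z i + β) * (c j * (γ * z j + δ)) - c j * (α * z j + β) * (c i * (γ * z i + δ)) =
      c i * c j * (α * δ - β * γ) * (z i - z j) := fun i j => by ring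
  have h2 : ∀ i j, i ≠ j → v.valuation K (c i * c j * (α * δ - β * γ) * (z i - z j)) = 1 := by
    intro i j hij
    rw [← h1]
    exact hm i j hij
  have h3 : ∀ i j, i ≠ j → c i * c j * (α * δ - β * γ) * (z i - z j) ≠ 0 := by
    intro i j hij h0
    have := h2 i j hij
    rw [h0, map_zero] at this
    exact zero_ne_one this
  have h4 : cr (z i) (z j) (z k) (z l) = (c i * c j * (α * δ - β * γ) * (z i - z j)) *
      (c k * c l * (α * δ - β * γ) * (z k - z l)) / ((c i * c l * (α * δ - β * γ) * (z i - z l)) *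
      (c k * c j * (α * δ - β * γ) * (z k - z j))) := by
    have e1 := h3 i j hij
    have e2 := h3 k l hkl
    have e3 := h3 i l hil
    have e4 := h3 k j hkj
    have c1 : c i ≠ 0 := by rintro h; simp [h] at e1
    have c2 : c j ≠ 0 := by rintro h; simp [h] at e1
    have c3 : c k ≠ 0 := by rintro h; simp [h] at e2
    have c4 : c l ≠ 0 := by rintro h; simp [h] at e2
    have d1 : z i - z l ≠ 0 := by rintro h; simp [h] at e3
    have d2 : z k - z j ≠ 0 := by rintro h; simp [h] at e4
    unfold cr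
    field_simp
  have e5 : v.valuation K ((c i * c j * (α * δ - β * γ) * (z i - z j)) * (c k * c l * (α * δ - β * γ) * (z k - z l))) = 1 := by
    rw [Valuation.map_mul (v.valuation K) (c i * c j * (α * δ - β * γ) * (z i - z j))
      (c k * c l * (α * δ - β * γ) * (z k - z l)), h2 i j hij, h2 k l hkl, one_mul]
  have e6 : v.valuation K ((c i * c l * (α * δ - β * γ) * (z i - z l)) * (c k * c j * (α * δ - β * γ) * (z k - z j))) = 1 := by
    rw [Valuation.map_mul (v.valuation K) (c i * c l * (α * δ - β * γ) * (z i - z l))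
      (c k * c j * (α * δ - β * γ) * (z k - z j)), h2 i l hil, h2 k j hkj, one_mul]
  rw [h4, map_div₀, e5, e6, div_one]

/-- units at a place above `p` -/
theorem unitAt_of_val {K : Type} [Field K] [CharZero K] {Γ : Type*} [LinearOrderedCommGroupWithZero Γ] (v : Valuation K Γ)
    (hint : ∀ n : ℤ, v (n : K) ≤ 1) {p : ℕ} (hp : v (p : K) < 1) {t : ℚ} (h : v (t : K) = 1) :
    Pool.Agent.Q231.SH.UnitAt p t := by
  have hden : (t.den : K) ≠ 0 := by exact_mod_cast t.den_ne_zero
  have h1 : (t : K) * (t.den : K) = (t.num : K) := by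
    have := Rat.mul_den_eq_num t
    have h2 : (((t * t.den : ℚ)) : K) = ((t.num : ℚ) : K) := by rw [this]
    push_cast at h2
    exact h2
  have h2 : v (t.num : K) = v (t.den : K) := by
    rw [← h1, map_mul, h, one_mul]
  have hbad : ¬ (v (t.num : K) < 1) := by
    intro h3
    have h4 : v (((t.den : ℤ) : K)) < 1 := by
      rw [Int.cast_natCast, ← h2]
      exact h3
    have hco : IsCoprime t.num (t.den : ℤ) := by
      rw [Int.isCoprime_iff_gcd_eq_one]
      exact t.reduced
    obtain ⟨u, w, huw⟩ := hco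
    have h5 : v (1 : K) < 1 := by
      have h6 : (1 : K) = (u : K) * (t.num : K) + (w : K) * ((t.den : ℤ) : K) := by
        have := congrArg (fun n : ℤ => (n : K)) huw
        push_cast at this ⊢
        exact this.symm
      rw [h6]
      refine Valuation.map_add_lt v ?_ ?_
      · rw [map_mul]
        calc v (u : K) * v (t.num : K) ≤ 1 * v (t.num : K) := mul_le_mul_left (hint u) _
          _ < 1 := by rw [one_mul]; exact h3
      · rw [map_mul]
        calc v (w : K) * v ((t.den : ℤ) : K) ≤ 1 * v ((t.den : ℤ) : K) := mul_le_mul_left (hint w) _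
          _ < 1 := by rw [one_mul]; exact h4
    rw [map_one] at h5
    exact lt_irrefl _ h5
  refine ⟨fun h3 => hbad ?_, fun h3 => hbad ?_⟩
  · obtain ⟨k, hk⟩ := h3
    rw [hk]
    push_cast
    rw [map_mul]
    calc v (p : K) * v (k : K) ≤ v (p : K) * 1 := mul_le_mul_right (hint k) _
      _ < 1 := by rw [mul_one]; exact hp
  · obtain ⟨k, hk⟩ := h3
    rw [h2, hk]
    push_cast
    rw [map_mul]
    have h6 : v (k : K) ≤ 1 := by exact_mod_cast hint (k : ℤ)
    calc v (p : K) * v (k : K) ≤ v (p : K) * 1 := mul_le_mul_right h6 _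
      _ < 1 := by rw [mul_one]; exact hp

/-- a place above `p` -/
theorem exists_place (K : Type) [Field K] [NumberField K] {p : ℕ} (hp : p.Prime) :
    ∃ v : HeightOneSpectrum (𝓞 K), ∀ n : ℕ, ((n : ℕ) : 𝓞 K) ∈ v.asIdeal ↔ p ∣ n := by
  have hmax : (Ideal.span {(p : ℤ)}).IsMaximal :=
    PrincipalIdealRing.isMaximal_of_irreducible (Nat.prime_iff_prime_int.1 hp).irreducible
  obtain ⟨Q, hQ, hc⟩ := Ideal.exists_ideal_over_maximal_of_isIntegral (S := 𝓞 K) (Ideal.span {(p : ℤ)})
    (by
      rw [(RingHom.injective_iff_ker_eq_bot _).1 (FaithfulSMul.algebraMap_injective ℤ (𝓞 K))]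
      exact bot_le)
  have hmem : ∀ n : ℕ, ((n : ℕ) : 𝓞 K) ∈ Q ↔ p ∣ n := by
    intro n
    have h1 : ((n : ℤ) ∈ Q.comap (algebraMap ℤ (𝓞 K))) ↔ (n : ℤ) ∈ Ideal.span {(p : ℤ)} := by rw [hc]
    rw [Ideal.mem_comap, Ideal.mem_span_singleton, Int.natCast_dvd_natCast] at h1
    rw [← h1]
    simp
  have hbot : Q ≠ ⊥ := by
    rintro rfl
    have := (hmem p).2 dvd_rfl
    rw [Ideal.mem_bot] at this
    exact hp.ne_zero (by exact_mod_cast this)
  exact ⟨⟨Q, hQ.isPrime, hbot⟩, hmem⟩

end Pool.Agent.Q290.AB
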